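import Mathlib

/-!
# Convex bi-embeddability of countable linear orders (MP_387a72_lc): definitions, part 1

The problem: `BiEmb` (convex bi-embeddability on the space `LO` of the codes of the linear orders on `ℕ`)
is Borel reducible to `IsoLO` (isomorphism).
-/

set_option autoImplicit false

namespace Pool.Agent.HLead.CB
open Set

/-- `x` codes a (reflexive) linear order on `ℕ`. -/
structure IsCode (x : ℕ × ℕ → Bool) : Prop where
  refl : ∀ a, x (a, a) = true
  trans : ∀ a b c, x (a, b) = true → x (b, c) = true → x (a, c) = true
  antisymm : ∀ a b, x (a, b) = true → x (b, a) = true → a = b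
  total : ∀ a b, x (a, b) = true ∨ x (b, a) = true

/-- The space of the codes of the linear orders on `ℕ`, a subspace of `2^(ℕ × ℕ)`. -/
def LO : Type := {x : ℕ × ℕ → Bool // IsCode x}

instance : TopologicalSpace LO := inferInstanceAs (TopologicalSpace {x : ℕ × ℕ → Bool // IsCode x})
instance : MeasurableSpace LO := borel LO
instance : BorelSpace LO := ⟨rfl⟩

/-- Isomorphism of coded orders. -/
def IsoLO (x y : LO) : Prop := ∃ f : ℕ ≃ ℕ, ∀ m n, x.1 (m, n) = y.1 (f m, f n)

/-- Convex embeddability of coded orders: an order embedding with convex image. -/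
def ConvEmb (x y : LO) : Prop :=
  ∃ f : ℕ → ℕ, (∀ m n, x.1 (m, n) = y.1 (f m, f n)) ∧
    ∀ a b c, a ∈ range f → c ∈ range f → y.1 (a, b) = true → y.1 (b, c) = true → b ∈ range f

/-- Convex bi-embeddability. -/
def BiEmb (x y : LO) : Prop := ConvEmb x y ∧ ConvEmb y x

/-! ## Blocks along the order of the finite sequences of rationals -/

/-- an enumeration of the positive rationals -/
noncomputable def ePos : ℕ ≃ {q : ℚ // 0 < q} := by
  haveI : Infinite {q : ℚ // 0 < q} := by
    refine Infinite.of_injective (fun n : ℕ => (⟨(n : ℚ) + 1, by positivity⟩ : {q : ℚ // 0 < q})) ?_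
    intro a b h
    have := congrArg Subtype.val h
    simpa using this
  exact (nonempty_denumerable {q : ℚ // 0 < q}).some.eqv.symm

/-- the block number `k` is `ℕ` with the order induced by `g k`: a chain of `k + 2` points followed by a
copy of the rationals -/
noncomputable def g (k i : ℕ) : ℚ :=
  if i < k + 2 then (i : ℚ) - (k + 2) else ((ePos (i - (k + 2)) : {q : ℚ // 0 < q}) : ℚ)

/-- an enumeration of the points -/
noncomputable def en : ℕ ≃ List ℚ × ℕ := (nonempty_denumerable (List ℚ × ℕ)).some.eqv.symm

/-- the order of the sum of the blocks `m σ`, `σ` in the lexicographic order of `List ℚ`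
(prefixes come first) -/
def leOm (m : List ℚ → ℕ) (p q : List ℚ × ℕ) : Prop :=
  p.1 < q.1 ∨ (p.1 = q.1 ∧ g (m p.1) p.2 ≤ g (m p.1) q.2)

/-- `m` and `m'` are conjugate under an automorphism of the order `List ℚ` -/
def Conj (m m' : List ℚ → ℕ) : Prop := ∃ φ : List ℚ ≃o List ℚ, ∀ σ, m' (φ σ) = m σ

open Classical in
/-- the code of the sum of the blocks, as a Boolean function -/
noncomputable def omFun (m : List ℚ → ℕ) : ℕ × ℕ → Bool := fun p => decide (leOm m (en p.1) (en p.2))

/-! ## Statements of the tasks -/

/-- TASK BLK1. Proof: `g k` is injective, so this is the lexicographic order. -/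
def S_BLK1 : Prop := ∀ m : List ℚ → ℕ, IsCode (omFun m)

/-- TASK BLK2. If the sums of the blocks are isomorphic, then the labels are conjugate.

Proof.  Write the isomorphism as a bijection `F : List ℚ × ℕ ≃ List ℚ × ℕ` with `leOm m p q ↔ leOm m' (F p) (F q)`
(conjugate by `en`).  Say that `q` is the successor of `p` if `p < q` and nothing is in between.  In the sum the
successor pairs are exactly `((σ, i), (σ, i + 1))` with `i + 1 < m σ + 2`: inside a block the points `i ≥ m σ + 2` form a
copy of the positive rationals (dense, no first, no last point), the last point `m σ + 1` of the chain is followed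
by this dense part, the blocks themselves are ordered as `List ℚ`, which is dense with a first element and no
last one (if `σ < τ` there is `ρ` with `σ < ρ < τ`; a block has no last point; so no successor pair has its two points in
different blocks: if `p = (σ, i)`, `q = (τ, j)`, `σ < τ` then `(σ, i')` with `g i' > g i`, exists between).  Hence for every `σ`
the chain `(σ, 0), ..., (σ, m σ + 1)` is a maximal chain of successors with `m σ + 2 ≥ 2` points, `F` maps it to a maximal
chain of successors of the second sum, so to the chain of some `τ =: φ σ`, and `m' τ = m σ`.  `φ` is a bijection (same for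
`F.symm`) and preserves the order since `F` does. -/
def S_BLK2 : Prop := ∀ (m m' : List ℚ → ℕ) (F : List ℚ × ℕ ≃ List ℚ × ℕ),
  (∀ p q, leOm m p q ↔ leOm m' (F p) (F q)) → Conj m m'

/-- TASK TREE. An automorphism of the order `List ℚ` that preserves the length is an automorphism of the tree.

Proof.  `σ` is a prefix of `τ` iff `σ ≤ τ` and there is no `ρ` with `σ < ρ ≤ τ` and `length ρ ≤ length σ`.  (If `σ` is a proper prefix of `τ`
and `σ < ρ ≤ τ` then `ρ` extends `σ` properly.  If `σ < τ` and `σ` is not a prefix of `τ` then `τ` has a prefix `ρ` with `σ < ρ ≤ τ`,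
`length ρ ≤ length σ`: cut `τ` after the first coordinate where it differs from `σ`.)  So `φ` preserves the prefix relation,
and the children of `σ` are the extensions of length `length σ + 1`. -/
def S_TREE : Prop := ∀ φ : List ℚ ≃o List ℚ, (∀ σ, (φ σ).length = σ.length) →
  ∀ (σ : List ℚ) (q : ℚ), ∃ q' : ℚ, φ (σ ++ [q]) = φ σ ++ [q']

/-- TASK COL. Back and forth for colourings of the rationals, up to a relation between the colours.

Proof.  The usual back and forth argument (Cantor) with finite partial order isomorphisms `p` of `ℚ` with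
`C (κ q) (κ' q')` for all pairs of `p`; Mathlib: `Order.PartialIso` in `Mathlib/Order/CountableDenseLinearOrder.lean` and its
use in `Order.iso_of_countable_dense`; copy that proof with the additional condition on the colours. -/
def S_COL : Prop := ∀ (A B : Type) (κ : ℚ → A) (κ' : ℚ → B) (C : A → B → Prop),
  (∀ q a b : ℚ, a < b → ∃ q', a < q' ∧ q' < b ∧ C (κ q) (κ' q')) →
  (∀ q' a b : ℚ, a < b → ∃ q, a < q ∧ q < b ∧ C (κ q) (κ' q')) →
  ∃ φ : ℚ ≃o ℚ, ∀ q, C (κ q) (κ' (φ q))

/-- the state after a path -/
def run {A : Type} (st : A → ℚ → A) : A → List ℚ → A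
  | a, [] => a
  | a, q :: l => run st (st a q) l

/-- TASK AUT. Local isomorphisms fit together.

Proof.  For `R a b` choose `φ a b : ℚ ≃o ℚ` with `R (st a q) (st' b (φ a b q))` for all `q` (any automorphism, for instance the
identity, if not `R a b`), and define `F a b : List ℚ → List ℚ` by recursion: `F a b [] = []`,
`F a b (q :: l) = φ a b q :: F (st a q) (st' b (φ a b q)) l`.  It is a bijection (the inverse is defined in the same way) and
preserves the lexicographic order. -/
def S_AUT : Prop := ∀ (A B : Type) (st : A → ℚ → A) (st' : B → ℚ → B) (R : A → B → Prop),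
  (∀ a b, R a b → ∃ φ : ℚ ≃o ℚ, ∀ q, R (st a q) (st' b (φ q))) →
  ∀ a b, R a b → ∃ φ : List ℚ ≃o List ℚ,
    ∀ σ, (φ σ).length = σ.length ∧ R (run st a σ) (run st' b (φ σ))

end Pool.Agent.HLead.CB
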