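import Pool.Agent.HLead.CB.Defs
import Pool.Agent.H700.CB_AUT
import Pool.Agent.H286.CB_TREE
import Pool.Agent.H227.CB_BLK2
import Pool.Agent.H123.CB_COL

/-!
# Bisimilarity of countable systems reduces to isomorphism of countable linear orders (MP_387a72_lc)
-/

set_option autoImplicit false

namespace Pool.Agent.HLead.CB
open Set

theorem g_inj (k : ℕ) : Function.Injective (g k) := by
  intro i j h
  unfold g at h
  split_ifs at h with h1 h2 h2
  · have : (i : ℚ) = j := by linarith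
    exact_mod_cast this
  · exfalso
    have h3 : (i : ℚ) < k + 2 := by exact_mod_cast h1
    have h4 := (ePos (j - (k + 2))).2
    rw [← h] at h4
    linarith
  · exfalso
    have h3 : (j : ℚ) < k + 2 := by exact_mod_cast h2
    have h4 := (ePos (i - (k + 2))).2
    rw [h] at h4
    linarith
  · have h3 : ePos (i - (k + 2)) = ePos (j - (k + 2)) := Subtype.ext h
    have h4 := ePos.injective h3
    omega

theorem leOm_trans {m : List ℚ → ℕ} {p q t : List ℚ × ℕ} (h : leOm m p q) (h' : leOm m q t) :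
    leOm m p t := by
  rcases h with h | ⟨h1, h2⟩
  · rcases h' with h' | ⟨h3, -⟩
    · exact Or.inl (h.trans h')
    · exact Or.inl (h3 ▸ h)
  · rcases h' with h' | ⟨h3, h4⟩
    · exact Or.inl (h1 ▸ h')
    · exact Or.inr ⟨h1.trans h3, by rw [← h1] at h4; exact h2.trans h4⟩

theorem leOm_antisymm {m : List ℚ → ℕ} {p q : List ℚ × ℕ} (h : leOm m p q) (h' : leOm m q p) :
    p = q := by
  rcases h with h | ⟨h1, h2⟩
  · rcases h' with h' | ⟨h3, -⟩
    · exact absurd (h.trans h') (lt_irrefl _)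
    · exact absurd (h3 ▸ h) (lt_irrefl _)
  · rcases h' with h' | ⟨-, h4⟩
    · exact absurd (h1 ▸ h') (lt_irrefl _)
    · rw [← h1] at h4
      exact Prod.ext h1 (g_inj _ (le_antisymm h2 h4))

theorem leOm_total (m : List ℚ → ℕ) (p q : List ℚ × ℕ) : leOm m p q ∨ leOm m q p := by
  rcases lt_trichotomy p.1 q.1 with h | h | h
  · exact Or.inl (Or.inl h)
  · rcases le_total (g (m p.1) p.2) (g (m p.1) q.2) with h' | h'
    · exact Or.inl (Or.inr ⟨h, h'⟩)
    · exact Or.inr (Or.inr ⟨h.symm, by rw [← h]; exact h'⟩)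
  · exact Or.inr (Or.inl h)

theorem omFun_iff {m : List ℚ → ℕ} {a b : ℕ} : omFun m (a, b) = true ↔ leOm m (en a) (en b) := by
  classical
  unfold omFun
  simp

theorem blk1 : S_BLK1 := by
  intro m
  refine ⟨fun a => ?_, fun a b c h h' => ?_, fun a b h h' => ?_, fun a b => ?_⟩
  · exact omFun_iff.mpr (Or.inr ⟨rfl, le_rfl⟩)
  · exact omFun_iff.mpr (leOm_trans (omFun_iff.mp h) (omFun_iff.mp h'))
  · exact en.injective (leOm_antisymm (omFun_iff.mp h) (omFun_iff.mp h'))
  · exact (leOm_total m (en a) (en b)).imp omFun_iff.mpr omFun_iff.mpr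

/-- the code of the sum of the blocks -/
noncomputable def Om (m : List ℚ → ℕ) : LO := ⟨omFun m, blk1 m⟩

theorem iso_Om (m m' : List ℚ → ℕ) : IsoLO (Om m) (Om m') ↔ Conj m m' := by
  constructor
  · rintro ⟨f, hf⟩
    refine Pool.Agent.H227.CB.t m m' ((en.symm.trans f).trans en) fun p q => ?_
    have h : omFun m (en.symm p, en.symm q) = omFun m' (f (en.symm p), f (en.symm q)) :=
      hf (en.symm p) (en.symm q)
    have h2 := (omFun_iff (m := m) (a := en.symm p) (b := en.symm q)).symm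
    rw [h, omFun_iff, en.apply_symm_apply, en.apply_symm_apply] at h2
    exact h2
  · rintro ⟨φ, hφ⟩
    refine ⟨(en.trans (φ.toEquiv.prodCongr (Equiv.refl ℕ))).trans en.symm, fun a b => ?_⟩
    show omFun m (a, b) = omFun m' (_, _)
    rw [Bool.eq_iff_iff, omFun_iff, omFun_iff]
    simp only [Equiv.trans_apply, Equiv.apply_symm_apply]
    unfold leOm
    simp only [Equiv.prodCongr_apply, Prod.map_fst, Prod.map_snd, Equiv.refl_apply,
      RelIso.coe_fn_toEquiv, hφ, φ.lt_iff_lt, EmbeddingLike.apply_eq_iff_eq]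

/-! ## A colouring of the rationals with dense colours -/

theorem irr {p q : ℚ} {n k : ℕ} (h : (p : ℝ) + n * √2 = q + k * √2) : n = k := by
  by_contra hne
  have h1 : ((n : ℝ) - k) * √2 = (q : ℝ) - p := by linarith
  have h2 : ((n : ℝ) - k) ≠ 0 := by
    intro h
    apply hne
    have : (n : ℝ) = k := by linarith
    exact_mod_cast this
  have h3 : √2 = (((q - p) / ((n : ℚ) - k) : ℚ) : ℝ) := by
    push_cast
    field_simp
    linarith
  exact irrational_sqrt_two ⟨_, h3.symm⟩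

/-- the countable dense set `ℚ + ℕ √2` -/
def DD2 : Set ℝ := range fun p : ℚ × ℕ => (p.1 : ℝ) + p.2 * √2

instance : Countable DD2 := (countable_range _).to_subtype
instance : Nonempty DD2 := ⟨⟨_, ⟨(0, 0), rfl⟩⟩⟩
instance : NoMinOrder DD2 := ⟨fun ⟨x, ⟨p, hp⟩⟩ => ⟨⟨_, ⟨(p.1 - 1, p.2), rfl⟩⟩, by
  show ((p.1 - 1 : ℚ) : ℝ) + p.2 * √2 < x
  rw [← hp]
  push_cast
  linarith⟩⟩
instance : NoMaxOrder DD2 := ⟨fun ⟨x, ⟨p, hp⟩⟩ => ⟨⟨_, ⟨(p.1 + 1, p.2), rfl⟩⟩, by
  show x < ((p.1 + 1 : ℚ) : ℝ) + p.2 * √2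
  rw [← hp]
  push_cast
  linarith⟩⟩
instance : DenselyOrdered DD2 := ⟨fun ⟨x, hx⟩ ⟨y, hy⟩ h => by
  obtain ⟨q, h1, h2⟩ := exists_rat_btwn (show x < y from h)
  exact ⟨⟨_, ⟨(q, 0), rfl⟩⟩, by show x < (q : ℝ) + ((0 : ℕ) : ℝ) * √2; simpa using h1,
    by show (q : ℝ) + ((0 : ℕ) : ℝ) * √2 < y; simpa using h2⟩⟩

theorem exists_colouring (C : Type) [Countable C] [Nonempty C] :
    ∃ κ : ℚ → C, ∀ (c : C) (a b : ℚ), a < b → ∃ q, a < q ∧ q < b ∧ κ q = c := by
  obtain ⟨d, hd⟩ := exists_surjective_nat C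
  obtain ⟨e⟩ := Order.iso_of_countable_dense ℚ DD2
  have h : ∀ x : DD2, ∃ n : ℕ, ∃ p : ℚ, (x : ℝ) = p + n * √2 := by
    rintro ⟨x, ⟨p, hp⟩⟩
    exact ⟨p.2, p.1, hp.symm⟩
  choose N P hNP using h
  refine ⟨fun q => d (N (e q)), fun c a b hab => ?_⟩
  obtain ⟨n, rfl⟩ := hd c
  have h1 : ((e a : DD2) : ℝ) < e b := e.strictMono hab
  have h2 : ((e a : DD2) : ℝ) - n * √2 < e b - n * √2 := by linarith
  obtain ⟨p, hp1, hp2⟩ := exists_rat_btwn h2
  let y : DD2 := ⟨_, ⟨(p, n), rfl⟩⟩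
  have hy : (y : ℝ) = p + n * √2 := rfl
  refine ⟨e.symm y, ?_, ?_, ?_⟩
  · rw [e.lt_symm_apply]
    show ((e a : DD2) : ℝ) < y
    rw [hy]; linarith
  · rw [e.symm_apply_lt]
    show (y : ℝ) < e b
    rw [hy]; linarith
  · show d (N (e (e.symm y))) = d n
    rw [e.apply_symm_apply]
    congr 1
    exact (irr (hy.symm.trans (hNP y))).symm

/-! ## Systems -/

section Sys

variable {S : Type} (κ : ℚ → Option S) (lb0 : S → ℕ) (c c' : S → S → Prop) (r0 : S)

open Classical in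
/-- one step along the rational `q` -/
noncomputable def stepO (o : Option S) (q : ℚ) : Option S :=
  match o, κ q with
  | some s, some t => if c s t then some t else none
  | _, _ => none

/-- the label of a state -/
def lbO : Option S → ℕ
  | none => 0
  | some s => lb0 s + 1

/-- the labels of the blocks -/
noncomputable def mm (σ : List ℚ) : ℕ :=
  Nat.pair σ.length (lbO lb0 (run (stepO κ c) (some r0) σ))

variable {κ lb0 c c' r0}

theorem stepO_some {s t : S} {q : ℚ} (hq : κ q = some t) (h : c s t) :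
    stepO κ c (some s) q = some t := by
  simp [stepO, hq, h]

theorem stepO_none {o : Option S} {q : ℚ} (hq : κ q = none) : stepO κ c o q = none := by
  cases o <;> simp [stepO, hq]

theorem of_stepO {o : Option S} {t : S} {q : ℚ} (h : stepO κ c o q = some t) :
    ∃ s, o = some s ∧ c s t := by
  unfold stepO at h
  split at h
  · rename_i s t' h1
    split_ifs at h with h2
    cases h
    exact ⟨s, rfl, h2⟩
  · cases h

theorem run_append {A : Type} (st : A → ℚ → A) (a : A) (l l' : List ℚ) :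
    run st a (l ++ l') = run st (run st a l) l' := by
  induction l generalizing a with
  | nil => rfl
  | cons q l ih => exact ih _

/-- `Y` is a bisimulation between the systems `c` and `c'` -/
structure BiS (lb0 : S → ℕ) (c c' : S → S → Prop) (Y : S → S → Prop) : Prop where
  l : ∀ s t, Y s t → lb0 s = lb0 t
  f : ∀ s t, Y s t → ∀ s', c s s' → ∃ t', c' t t' ∧ Y s' t'
  b : ∀ s t, Y s t → ∀ t', c' t t' → ∃ s', c s s' ∧ Y s' t'

theorem conj_of_bis (hκ : ∀ (o : Option S) (a b : ℚ), a < b → ∃ q, a < q ∧ q < b ∧ κ q = o)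
    {Y : S → S → Prop} (hY : BiS lb0 c c' Y) (h0 : Y r0 r0) :
    Conj (mm κ lb0 c r0) (mm κ lb0 c' r0) := by
  let R : Option S → Option S → Prop := fun o o' =>
    (o = none ∧ o' = none) ∨ ∃ s s', o = some s ∧ o' = some s' ∧ Y s s'
  obtain ⟨φ, hφ⟩ := Pool.Agent.H700.CB.t (Option S) (Option S) (stepO κ c) (stepO κ c') R
    (fun o o' h => by
      refine Pool.Agent.H123.CB.t _ _ (stepO κ c o) (stepO κ c' o') R ?_ ?_
      · intro q a b hab
        cases ht : stepO κ c o q with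
        | none =>
          obtain ⟨q', h1, h2, h3⟩ := hκ none a b hab
          exact ⟨q', h1, h2, Or.inl ⟨rfl, stepO_none h3⟩⟩
        | some t =>
          obtain ⟨s, rfl, hst⟩ := of_stepO ht
          rcases h with ⟨h, -⟩ | ⟨s1, s', hs1, rfl, hss⟩
          · cases h
          · cases hs1
            obtain ⟨t', ht', hYt⟩ := hY.f _ _ hss _ hst
            obtain ⟨q', h1, h2, h3⟩ := hκ (some t') a b hab
            exact ⟨q', h1, h2, Or.inr ⟨t, t', rfl, stepO_some h3 ht', hYt⟩⟩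
      · intro q a b hab
        cases ht : stepO κ c' o' q with
        | none =>
          obtain ⟨q', h1, h2, h3⟩ := hκ none a b hab
          exact ⟨q', h1, h2, Or.inl ⟨stepO_none h3, rfl⟩⟩
        | some t =>
          obtain ⟨s, rfl, hst⟩ := of_stepO ht
          rcases h with ⟨-, h⟩ | ⟨s1, s', rfl, hs', hss⟩
          · cases h
          · cases hs'
            obtain ⟨t', ht', hYt⟩ := hY.b _ _ hss _ hst
            obtain ⟨q', h1, h2, h3⟩ := hκ (some t') a b hab
            exact ⟨q', h1, h2, Or.inr ⟨t', t, stepO_some h3 ht', rfl, hYt⟩⟩)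
    (some r0) (some r0) (Or.inr ⟨r0, r0, rfl, rfl, h0⟩)
  refine ⟨φ, fun σ => ?_⟩
  obtain ⟨h1, h2⟩ := hφ σ
  have h3 : lbO lb0 (run (stepO κ c') (some r0) (φ σ)) = lbO lb0 (run (stepO κ c) (some r0) σ) := by
    rcases h2 with ⟨e1, e2⟩ | ⟨s, s', e1, e2, hss⟩
    · rw [e1, e2]
    · rw [e1, e2]
      simp [lbO, hY.l _ _ hss]
  unfold mm
  rw [h1, h3]

theorem bis_of_conj (hκ : ∀ (o : Option S) (a b : ℚ), a < b → ∃ q, a < q ∧ q < b ∧ κ q = o)
    (h : Conj (mm κ lb0 c r0) (mm κ lb0 c' r0)) : ∃ Y : S → S → Prop, BiS lb0 c c' Y ∧ Y r0 r0 := by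
  obtain ⟨φ, hφ⟩ := h
  have hlen : ∀ σ, (φ σ).length = σ.length := fun σ => (Nat.pair_eq_pair.mp (hφ σ)).1
  have hlb : ∀ σ, lbO lb0 (run (stepO κ c') (some r0) (φ σ)) =
      lbO lb0 (run (stepO κ c) (some r0) σ) := fun σ => (Nat.pair_eq_pair.mp (hφ σ)).2
  have hlen' : ∀ σ, (φ.symm σ).length = σ.length := by
    intro σ
    rw [← hlen (φ.symm σ), φ.apply_symm_apply]
  have hsome : ∀ {o o' : Option S} {t : S}, o = some t → lbO lb0 o' = lbO lb0 o →
      ∃ t', o' = some t' ∧ lb0 t' = lb0 t := by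
    rintro o o' t rfl h
    cases o' with
    | none => simp [lbO] at h
    | some t' => exact ⟨t', rfl, by simpa [lbO] using h⟩
  refine ⟨fun s s' => ∃ σ, run (stepO κ c) (some r0) σ = some s ∧
    run (stepO κ c') (some r0) (φ σ) = some s', ⟨?_, ?_, ?_⟩, [], rfl, ?_⟩
  · rintro s s' ⟨σ, h1, h2⟩
    obtain ⟨t', h3, h4⟩ := hsome h1 (hlb σ)
    rw [h2] at h3
    cases h3
    exact h4.symm
  · rintro s s' ⟨σ, h1, h2⟩ t hst
    obtain ⟨q, -, -, hq⟩ := hκ (some t) 0 1 one_pos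
    obtain ⟨q', hq'⟩ := Pool.Agent.H286.CB.t φ hlen σ q
    have h3 : run (stepO κ c) (some r0) (σ ++ [q]) = some t := by
      rw [run_append, h1]
      exact stepO_some hq hst
    obtain ⟨t', h4, h5⟩ := hsome h3 (hlb (σ ++ [q]))
    have h6 := h4
    rw [hq', run_append, h2] at h6
    obtain ⟨s1, e1, h7⟩ := of_stepO (show stepO κ c' (some s') q' = some t' from h6)
    cases e1
    exact ⟨t', h7, σ ++ [q], h3, h4⟩
  · rintro s s' ⟨σ, h1, h2⟩ t' hst
    obtain ⟨q', -, -, hq'⟩ := hκ (some t') 0 1 one_pos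
    obtain ⟨q, hq⟩ := Pool.Agent.H286.CB.t φ.symm hlen' (φ σ) q'
    rw [φ.symm_apply_apply] at hq
    have hq2 : φ (σ ++ [q]) = φ σ ++ [q'] := by rw [← hq, φ.apply_symm_apply]
    have h3 : run (stepO κ c') (some r0) (φ (σ ++ [q])) = some t' := by
      rw [hq2, run_append, h2]
      exact stepO_some hq' hst
    obtain ⟨t, h4, h5⟩ := hsome h3 (hlb (σ ++ [q])).symm
    have h6 := h4
    rw [run_append, h1] at h6
    obtain ⟨s1, e1, h7⟩ := of_stepO (show stepO κ c (some s) q = some t from h6)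
    cases e1
    exact ⟨t, h7, σ ++ [q], h4, h3⟩
  · have : φ [] = [] := List.length_eq_zero_iff.mp (by rw [hlen]; rfl)
    rw [this]
    rfl

end Sys

end Pool.Agent.HLead.CB
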