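import Pool.Agent.HLead.CB.Sound
import Pool.Agent.HLead.CB.Blocks

/-!
# Measurability and the reduction (MP_387a72_lc)
-/

set_option autoImplicit false

namespace Pool.Agent.HLead.CB
open Set MeasureTheory
open Pool.Agent.H.MP_387a72_lc

/-- the order coded by `L`, on a copy of `ℕ` -/
def Ty (_L : LO) : Type := ℕ

instance instTyLE (L : LO) : LE (Ty L) := ⟨fun a b => L.1 ((a : ℕ), (b : ℕ)) = true⟩

noncomputable instance instTy (L : LO) : LinearOrder (Ty L) where
  toLE := instTyLE L
  lt a b := L.1 ((a : ℕ), (b : ℕ)) = true ∧ ¬ (L.1 ((b : ℕ), (a : ℕ)) = true)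
  lt_iff_le_not_ge _ _ := Iff.rfl
  le_refl a := L.2.refl a
  le_trans a b c h1 h2 := L.2.trans a b c h1 h2
  le_antisymm a b h1 h2 := L.2.antisymm a b h1 h2
  le_total a b := L.2.total a b
  toDecidableLE := Classical.decRel _

instance (L : LO) : Countable (Ty L) := inferInstanceAs (Countable ℕ)
instance (L : LO) : Nonempty (Ty L) := inferInstanceAs (Nonempty ℕ)

theorem ty_le (L : LO) (a b : Ty L) : a ≤ b ↔ L.1 ((a : ℕ), (b : ℕ)) = true := Iff.rfl

theorem convEmb_iff (L L' : LO) : ConvEmb L L' ↔ ∃ R : Ty L → Ty L' → Prop, CPI R ∧ Tot R := by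
  constructor
  · rintro ⟨f, hf, hc⟩
    have hle : ∀ a b : ℕ, L.1 (a, b) = true ↔ L'.1 (f a, f b) = true := fun a b => by rw [hf]
    refine ⟨fun a b => f a = b, ⟨?_, ?_, ?_⟩, fun a => ⟨f a, rfl⟩⟩
    · rintro a b a' b' rfl rfl
      exact hle a a'
    · rintro a b a' b' z - - - -
      exact ⟨_, rfl⟩
    · rintro a b a' b' w rfl rfl h1 h2
      exact hc (f a) w (f a') ⟨a, rfl⟩ ⟨a', rfl⟩ h1 h2
  · rintro ⟨R, ⟨h1, h2, h3⟩, ht⟩
    choose f hf using ht
    have hle : ∀ a b : ℕ, L.1 (a, b) = true ↔ L'.1 (f a, f b) = true :=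
      fun a b => h1 a (f a) b (f b) (hf a) (hf b)
    refine ⟨f, fun a b => Bool.eq_iff_iff.mpr (hle a b), ?_⟩
    rintro _ b _ ⟨a, rfl⟩ ⟨c, rfl⟩ h4 h5
    obtain ⟨z, hz⟩ := h3 a (f a) c (f c) b (hf a) (hf c) h4 h5
    refine ⟨z, ?_⟩
    have e1 : L'.1 (f z, b) = true := (h1 z (f z) z b (hf z) hz).mp (L.2.refl z)
    have e2 : L'.1 (b, f z) = true := (h1 z b z (f z) hz (hf z)).mp (L.2.refl z)
    exact L'.2.antisymm _ _ e1 e2

/-- the system of `L` -/
def trL (L : LO) : St ℕ → St ℕ → Prop := tr (α := Ty L)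

theorem exists_kappa : ∃ κ : ℚ → Option (St ℕ),
    ∀ (o : Option (St ℕ)) (a b : ℚ), a < b → ∃ q, a < q ∧ q < b ∧ κ q = o :=
  exists_colouring (Option (St ℕ))

/-- the colouring -/
noncomputable def kap : ℚ → Option (St ℕ) := exists_kappa.choose

theorem hkap : ∀ (o : Option (St ℕ)) (a b : ℚ), a < b → ∃ q, a < q ∧ q < b ∧ kap q = o :=
  exists_kappa.choose_spec

/-- the labels of the blocks for `L` -/
noncomputable def mL (L : LO) : List ℚ → ℕ := mm kap lab (trL L) St.root

/-- the reduction -/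
noncomputable def red (L : LO) : LO := Om (mL L)

theorem red_iff (L L' : LO) : BiEmb L L' ↔ IsoLO (red L) (red L') := by
  unfold red
  rw [iso_Om]
  constructor
  · rintro ⟨h, h'⟩
    obtain ⟨R, h1, t1⟩ := (convEmb_iff _ _).mp h
    obtain ⟨S, h2, t2⟩ := (convEmb_iff _ _).mp h'
    obtain ⟨Y, h0, hY⟩ := bis_of_emb h1 h2 t1 t2
    exact conj_of_bis hkap (Y := Y) ⟨fun s t h => (hY s t h).1, fun s t h => (hY s t h).2.1,
      fun s t h => (hY s t h).2.2⟩ h0
  · intro h
    obtain ⟨Y, hY, h0⟩ := bis_of_conj hkap h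
    have hB : Bi (α := Ty L) (β := Ty L') Y := ⟨hY.l, hY.f, hY.b⟩
    exact ⟨(convEmb_iff _ _).mpr (emb_of_bis hB h0), (convEmb_iff _ _).mpr (emb_of_bis hB.flip h0)⟩

/-! ## Measurability -/

/-- `P` is a Borel property of codes -/
def MP (P : LO → Prop) : Prop := MeasurableSet {L | P L}

theorem borel_LO : (inferInstance : MeasurableSpace LO) =
    MeasurableSpace.comap (Subtype.val : {x : ℕ × ℕ → Bool // IsCode x} → ℕ × ℕ → Bool) inferInstance := by
  have h : BorelSpace {x : ℕ × ℕ → Bool // IsCode x} := inferInstance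
  exact h.measurable_eq.symm

theorem measurable_val : Measurable (fun L : LO => L.1) := by
  refine measurable_iff_comap_le.mpr ?_
  exact le_of_eq borel_LO.symm

theorem MP.atom (a b : ℕ) : MP fun L => L.1 (a, b) = true := by
  have h : Measurable fun L : LO => L.1 (a, b) := (measurable_pi_apply (a, b)).comp measurable_val
  exact h (measurableSet_singleton true)

theorem MP.const (p : Prop) : MP fun _ => p := MeasurableSet.const p

theorem MP.and {P Q : LO → Prop} (h : MP P) (h' : MP Q) : MP fun L => P L ∧ Q L :=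
  MeasurableSet.inter h h'

theorem MP.or {P Q : LO → Prop} (h : MP P) (h' : MP Q) : MP fun L => P L ∨ Q L :=
  MeasurableSet.union h h'

theorem MP.not {P : LO → Prop} (h : MP P) : MP fun L => ¬ P L := MeasurableSet.compl h

theorem MP.imp {P Q : LO → Prop} (h : MP P) (h' : MP Q) : MP fun L => P L → Q L := by
  have : MP fun L => ¬ P L ∨ Q L := h.not.or h'
  refine (congrArg MeasurableSet (Set.ext fun L => ?_)).mp this
  exact imp_iff_not_or.symm

theorem MP.ex {ι : Type} [Countable ι] {P : ι → LO → Prop} (h : ∀ i, MP (P i)) :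
    MP fun L => ∃ i, P i L := by
  have : {L | ∃ i, P i L} = ⋃ i, {L | P i L} := by ext; simp
  unfold MP
  rw [this]
  exact MeasurableSet.iUnion h

theorem MP.all {ι : Type} [Countable ι] {P : ι → LO → Prop} (h : ∀ i, MP (P i)) :
    MP fun L => ∀ i, P i L := by
  have : {L | ∀ i, P i L} = ⋂ i, {L | P i L} := by ext; simp
  unfold MP
  rw [this]
  exact MeasurableSet.iInter h

theorem MP.iff {P Q : LO → Prop} (h : MP P) (h' : MP Q) : MP fun L => (P L ↔ Q L) := by
  have : MP fun L => (P L → Q L) ∧ (Q L → P L) := (h.imp h').and (h'.imp h)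
  refine (congrArg MeasurableSet (Set.ext fun L => ?_)).mp this
  exact iff_iff_implies_and_implies.symm

theorem MP.cg {P Q : LO → Prop} (h : ∀ L, P L ↔ Q L) (hP : MP P) : MP Q :=
  (congrArg MeasurableSet (Set.ext h)).mp hP

/-- the order relation of the code `L` -/
def leL (L : LO) (a b : ℕ) : Prop := L.1 (a, b) = true

theorem MP.leL (a b : ℕ) : MP fun L => leL L a b := MP.atom a b

/-- the one-sided relation -/
def sleL (L : LO) (s : Bool) (a b : ℕ) : Prop := sle (α := Ty L) s a b

/-- the hull -/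
def hullL (L : LO) (l : List (ℕ × ℕ)) (s : Bool) (z : ℕ) : Prop := Hull (α := Ty L) l s z

/-- the comparison -/
def cmpL (L : LO) (l : List (ℕ × ℕ)) : Prop := Cmp (α := Ty L) l

/-- the successors in the game of the code `L` -/
def scL (L : LO) : Pos ℕ → Pos ℕ → Prop := sc (α := Ty L)

theorem MP.sleL (s : Bool) (a b : ℕ) : MP fun L => sleL L s a b :=
  MP.cg (P := fun L => (s = true → CB.leL L a b) ∧ (s = false → CB.leL L b a)) (fun _ => Iff.rfl)
    (((MP.const _).imp (MP.leL a b)).and ((MP.const _).imp (MP.leL b a)))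

theorem MP.hullL (l : List (ℕ × ℕ)) (s : Bool) (z : ℕ) : MP fun L => hullL L l s z :=
  MP.cg (P := fun L => ∃ p : ℕ × ℕ, p ∈ l ∧ ∃ q : ℕ × ℕ, q ∈ l ∧ CB.leL L (co s p) z ∧
    CB.leL L z (co s q)) (fun _ => Iff.rfl)
    (MP.ex fun _ => (MP.const _).and (MP.ex fun _ => (MP.const _).and
      ((MP.leL _ _).and (MP.leL _ _))))

theorem MP.cmpL (l : List (ℕ × ℕ)) : MP fun L => cmpL L l :=
  MP.cg (P := fun L => ∀ p : ℕ × ℕ, p ∈ l → ∀ q : ℕ × ℕ, q ∈ l → (CB.leL L p.1 q.1 ↔
    CB.leL L p.2 q.2)) (fun _ => Iff.rfl)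
    (MP.all fun _ => MP.imp (MP.const _) (MP.all fun _ => MP.imp (MP.const _)
      (MP.iff (MP.leL _ _) (MP.leL _ _))))

theorem MP.sc (p q : Pos ℕ) : MP fun L => scL L p q := by
  cases p with
  | top => exact MP.cg (P := fun _ => q = Pos.top) (fun _ => Iff.rfl) (MP.const _)
  | bot => exact MP.cg (P := fun _ => False) (fun _ => Iff.rfl) (MP.const _)
  | pad p => exact MP.cg (P := fun _ => q = p) (fun _ => Iff.rfl) (MP.const _)
  | and p p' => exact MP.cg (P := fun _ => q = p ∨ q = p') (fun _ => Iff.rfl) (MP.const _)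
  | iso l =>
    exact MP.cg (P := fun L => (q = Pos.bot ∧ ¬ CB.cmpL L l) ∨ ∃ s : Bool, ∃ z : ℕ,
      q = Pos.ch l s z ∧ CB.hullL L l s z) (fun _ => Iff.rfl)
      (((MP.const _).and (MP.cmpL l).not).or
        (MP.ex fun s => MP.ex fun z => (MP.const _).and (MP.hullL l s z)))
  | ch l s z =>
    exact MP.cg (P := fun L => ∃ w : ℕ, q = Pos.iso (pr s z w :: l) ∧ CB.hullL L l (!s) w)
      (fun _ => Iff.rfl) (MP.ex fun w => (MP.const _).and (MP.hullL l _ w))
  | emb s x y x' m =>
    exact MP.cg (P := fun L => (∃ y' : ℕ, CB.sleL L s x' y' ∧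
      ((∃ e : ℕ, m = some e ∧ ¬ CB.sleL L s e y' ∧ q = Pos.iso [(x, x'), (y, y')]) ∨
        (m = none ∧ q = Pos.and (Pos.iso [(x, x'), (y, y')]) (Pos.root (K.A (!s)))))) ∨
      (m = none ∧ q = Pos.root K.C)) (fun _ => Iff.rfl)
      (MP.or (MP.ex fun y' => (MP.sleL s x' y').and (MP.or
        (MP.ex fun e => (MP.const _).and ((MP.sleL s e y').not.and (MP.const _)))
        (MP.const _))) (MP.const _))
  | wit x x' m =>
    exact MP.cg (P := fun L => q = Pos.iso [(x false, x' false), (x true, x' true)] ∨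
      (∃ s : Bool, ∃ y : ℕ, ∃ μ : Option ℕ, m s = some μ ∧ CB.sleL L s (x s) y ∧
        q = Pos.emb s (x s) y (x' s) μ) ∨
      ((∀ t, ∃ e, m t = some (some e)) ∧ ∃ s, q = Pos.root (K.A s))) (fun _ => Iff.rfl)
      ((MP.const _).or (MP.or (MP.ex fun s => MP.ex fun y => MP.ex fun μ =>
      (MP.const _).and ((MP.sleL s _ y).and (MP.const _))) (MP.const _)))
  | ex k x =>
    exact MP.cg (P := fun _ => ∃ x' m, okm k m ∧ q = Pos.wit x x' m) (fun _ => Iff.rfl)
      (MP.const _)
  | root k =>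
    exact MP.cg (P := fun L => ∃ x : Bool → ℕ, CB.leL L (x false) (x true) ∧ q = Pos.ex k x)
      (fun _ => Iff.rfl) (MP.ex fun x => (MP.leL _ _).and (MP.const _))
  | fam s d x u v =>
    exact MP.cg (P := fun L => (∃ y : ℕ, CB.sleL L s x y ∧ q = Pos.iso [(x, u), (y, v)]) ∨
      q = Pos.root (gk s d)) (fun _ => Iff.rfl)
      ((MP.ex fun y => (MP.sleL s x y).and (MP.const _)).or (MP.const _))

/-- the steps -/
def stpL (L : LO) : Pos ℕ → Pos ℕ → Prop := stp (DD (Ty L))

/-- the transitions between pairs of positions -/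
def csL (L : LO) : Bool × Pos ℕ × Pos ℕ → Bool × Pos ℕ × Pos ℕ → Prop := cs (DD (Ty L))

theorem MP.stp (p q : Pos ℕ) : MP fun L => stpL L p q :=
  MP.cg (P := fun L => q = Pos.top ∨ (¬ al p ∧ q = p) ∨ (al p ∧ ∃ t : Pos ℕ, scL L p t ∧
    q = Pos.pad t)) (fun _ => Iff.rfl)
    ((MP.const _).or (MP.or (MP.const _) ((MP.const _).and
      (MP.ex fun t => (MP.sc p t).and (MP.const _)))))

theorem MP.cs (c d : Bool × Pos ℕ × Pos ℕ) : MP fun L => csL L c d :=
  MP.cg (P := fun L => (c.1 = true ∧ d.1 = false ∧ (stpL L c.2.1 d.2.1 ∨ stpL L c.2.2 d.2.1) ∧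
      ¬ al d.2.2) ∨ (c.1 = false ∧ d.1 = true ∧ (scL L c.2.1 d.2.1 ∨ scL L c.2.2 d.2.1)))
    (fun _ => Iff.rfl)
    (((MP.const _).and ((MP.const _).and (((MP.stp _ _).or (MP.stp _ _)).and
    (MP.const _)))).or ((MP.const _).and ((MP.const _).and ((MP.sc _ _).or (MP.sc _ _)))))

theorem MP.tr (s t : St ℕ) : MP fun L => trL L s t := by
  cases s with
  | root =>
    exact MP.cg (P := fun L => (∃ k, t = St.Z k) ∨ (∃ m : Option Bool, ∃ a b : ℕ,
      CB.leL L a b ∧ t = St.P m a b) ∨ ∃ a b : ℕ, CB.leL L a b ∧ t = St.T [a, b])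
      (fun _ => Iff.rfl)
      ((MP.const _).or (MP.or (MP.ex fun m => MP.ex fun a => MP.ex fun b =>
      (MP.leL a b).and (MP.const _)) (MP.ex fun a => MP.ex fun b => (MP.leL a b).and (MP.const _))))
  | Z k =>
    exact MP.cg (P := fun _ => t = St.cd (true, Pos.root k, Pos.root k)) (fun _ => Iff.rfl)
      (MP.const _)
  | P m a b =>
    exact MP.cg (P := fun L => t = St.T [a, b] ∨
      ∃ s : Bool, ∃ u v : ℕ, (m = none ∨ m = some s) ∧ CB.sleL L s u v ∧
        t = St.Q m s (ep s a b) u v) (fun _ => Iff.rfl)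
      ((MP.const _).or (MP.ex fun s => MP.ex fun u => MP.ex fun v =>
      (MP.const _).and ((MP.sleL s u v).and (MP.const _))))
  | Q m s x u v =>
    exact MP.cg (P := fun _ => t = St.T [u, v] ∨
      t = St.cd (true, Pos.fam s m.isNone x u v, Pos.fam s m.isNone x u v)) (fun _ => Iff.rfl)
      (MP.const _)
  | T l =>
    exact MP.cg (P := fun L => (∃ i j : ℕ, ∃ p p' : ℕ, l[i]? = some p ∧ l[j]? = some p' ∧
      CB.leL L p p' ∧ t = St.O i j) ∨
      ∃ z p p' : ℕ, p ∈ l ∧ p' ∈ l ∧ CB.leL L p z ∧ CB.leL L z p' ∧ t = St.T (z :: l))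
      (fun _ => Iff.rfl)
      (MP.or (MP.ex fun i => MP.ex fun j => MP.ex fun p => MP.ex fun p' =>
      (MP.const _).and ((MP.const _).and ((MP.leL p p').and (MP.const _))))
      (MP.ex fun z => MP.ex fun p => MP.ex fun p' => (MP.const _).and ((MP.const _).and
        ((MP.leL _ _).and ((MP.leL _ _).and (MP.const _))))))
  | O i j => exact MP.cg (P := fun _ => False) (fun _ => Iff.rfl) (MP.const _)
  | cd c =>
    exact MP.cg (P := fun L => ∃ d : Bool × Pos ℕ × Pos ℕ, csL L c d ∧ t = St.cd d)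
      (fun _ => Iff.rfl) (MP.ex fun d => (MP.cs c d).and (MP.const _))

theorem MP.run (σ : List ℚ) : ∀ (o o' : Option (St ℕ)),
    MP fun L => CB.run (stepO kap (trL L)) o σ = o' := by
  induction σ with
  | nil => exact fun o o' => MP.cg (P := fun _ => o = o') (fun _ => Iff.rfl) (MP.const _)
  | cons q l ih =>
    intro o o'
    have hstep : ∀ o1, MP fun L => stepO kap (trL L) o q = o1 := by
      intro o1
      cases o with
      | none =>
        have : ∀ L, stepO kap (trL L) none q = none := fun L => by simp [stepO]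
        simp only [this]
        exact MP.const _
      | some s =>
        cases hk : kap q with
        | none =>
          have : ∀ L, stepO kap (trL L) (some s) q = none := fun L => stepO_none hk
          simp only [this]
          exact MP.const _
        | some t =>
          have h1 : MP fun L => (trL L s t ∧ some t = o1) ∨ (¬ trL L s t ∧ none = o1) :=
            ((MP.tr s t).and (MP.const _)).or ((MP.tr s t).not.and (MP.const _))
          refine (congrArg MeasurableSet (Set.ext fun L => ?_)).mp h1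
          show _ ↔ stepO kap (trL L) (some s) q = o1
          by_cases h : trL L s t
          · rw [stepO_some hk h]
            simp [h]
          · have : stepO kap (trL L) (some s) q = none := by simp [stepO, hk, h]
            rw [this]
            simp [h]
    have h1 : MP fun L => ∃ o1, stepO kap (trL L) o q = o1 ∧ CB.run (stepO kap (trL L)) o1 l = o' :=
      MP.ex fun o1 => (hstep o1).and (ih o1 o')
    refine (congrArg MeasurableSet (Set.ext fun L => ?_)).mp h1
    simp only [mem_ofPred_eq, exists_eq_left']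
    rfl

theorem MP.mL (σ : List ℚ) (n : ℕ) : MP fun L => mL L σ = n := by
  have h1 : MP fun L => ∃ o, CB.run (stepO kap (trL L)) (some St.root) σ = o ∧
      Nat.pair σ.length (lbO lab o) = n := MP.ex fun o => (MP.run σ _ o).and (MP.const _)
  refine (congrArg MeasurableSet (Set.ext fun L => ?_)).mp h1
  simp only [mem_ofPred_eq, exists_eq_left']
  rfl

theorem measurable_red : Measurable red := by
  have h0 : Measurable fun L => (red L).1 := by
    refine measurable_pi_iff.mpr fun p => ?_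
    refine measurable_to_bool ?_
    have h1 : MP fun L => ∃ n, mL L (en p.1).1 = n ∧ ((en p.1).1 < (en p.2).1 ∨
        ((en p.1).1 = (en p.2).1 ∧ g n (en p.1).2 ≤ g n (en p.2).2)) :=
      MP.ex fun n => (MP.mL _ n).and (MP.const _)
    refine (congrArg MeasurableSet (Set.ext fun L => ?_)).mp h1
    simp only [mem_ofPred_eq, exists_eq_left']
    exact (omFun_iff (m := mL L) (a := p.1) (b := p.2)).symm
  refine measurable_iff_comap_le.mpr ?_
  have h1 := measurable_iff_comap_le.mp h0
  have h2 : MeasurableSpace.comap (fun L => (red L).1) MeasurableSpace.pi =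
      MeasurableSpace.comap red (MeasurableSpace.comap
        (Subtype.val : {x : ℕ × ℕ → Bool // IsCode x} → ℕ × ℕ → Bool) MeasurableSpace.pi) :=
    MeasurableSpace.comap_comp.symm
  rw [h2] at h1
  exact (congrArg (MeasurableSpace.comap red) borel_LO).trans_le h1

end Pool.Agent.HLead.CB
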