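import Pool.Graph.R_pool_sql_team_39128cda.H.MP_387a72_lc.B

/-!
# Critical points, for embeddings into arbitrary linear orders (MP_387a72_lc)

Adapted from the library module `Pool.Graph.R_pool_sql_team_39128cda.H.MP_387a72_lc.B` (where the target is the order itself).
-/

set_option autoImplicit false

namespace Pool.Agent.HLead.CB
open Set
open Pool.Agent.H.MP_387a72_lc (PI CPI II Em sle sle_t sle_f sle_refl sle_trans sle_total Crit)

variable {α β : Type} [LinearOrder α] [LinearOrder β]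

def CritR (β : Type) [LinearOrder β] (x : α) : Prop :=
  ∀ (x' : β) (J : Set β), (∀ y, x ≤ y → ∃ y' ∈ J, II x y x' y') →
    ∃ R : α → β → Prop, CPI R ∧ R x x' ∧ (∀ a b, R a b → x ≤ a ∧ ∃ j ∈ J, b ≤ j) ∧
      ∀ y, x ≤ y → ∃ y', R y y'

theorem critG {x : α} (hG : ∀ w, x ≤ w → ∃ y, x ≤ y ∧ ¬ Em x y x w) : CritR β x := by
  intro x' J hJ
  let τ : α → Set α := fun y => {w | Em x w x y}
  let τ' : β → Set α := fun y => {w | Em x w x' y}
  have h1 : ∀ D : Set α, ∃ (w : α) (w' : β) (φ : α → β → Prop), x ≤ w ∧ w' ∈ J ∧ CPI φ ∧ φ x x' ∧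
      φ w w' ∧ ∀ y, x ≤ y → τ y = D → w ∉ D := by
    intro D
    by_cases hD : ∃ y, x ≤ y ∧ τ y = D
    · obtain ⟨y, hy, rfl⟩ := hD
      obtain ⟨w, hw, hn⟩ := hG y hy
      obtain ⟨w', hw', φ, h1, h2, h3⟩ := hJ w hw
      exact ⟨w, w', φ, hw, hw', h1, h2, h3, fun _ _ _ => hn⟩
    · obtain ⟨w', hw', φ, h1, h2, h3⟩ := hJ x le_rfl
      exact ⟨x, w', φ, le_rfl, hw', h1, h2, h3, fun y hy h => absurd ⟨y, hy, h⟩ hD⟩
  choose w w' φ hw hw' hφ hx hww hn using h1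
  have hτ : ∀ D y y', φ D y y' → τ' y' = τ y := by
    intro D y y' h
    ext u
    exact ⟨fun hu => Em.trans hu (hφ D).flip (hx D) h, fun hu => Em.trans hu (hφ D) (hx D) h⟩
  have hlt : ∀ y, x ≤ y → y ≤ w (τ y) := by
    intro y hy
    by_contra hc
    exact hn (τ y) y hy rfl ⟨w (τ y), hw _, (not_le.mp hc).le, _, CPI.refl, rfl, rfl⟩
  have htot : ∀ y, x ≤ y → ∃ y', x ≤ y ∧ φ (τ y) y y' := fun y hy =>
    ((hφ _).2.1 _ _ _ _ y (hx _) (hww _) hy (hlt y hy)).imp fun _ h => ⟨hy, h⟩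
  refine ⟨fun y y' => x ≤ y ∧ φ (τ y) y y', ⟨?_, ?_, ?_⟩, ⟨le_rfl, hx _⟩, ?_, htot⟩
  · rintro y y' z z' ⟨hy, h1⟩ ⟨hz, h2⟩
    by_cases he : τ y = τ z
    · exact (hφ _).1 _ _ _ _ (he ▸ h1) h2
    constructor
    · intro hle
      by_contra hc
      refine he (Subset.antisymm (fun u hu => Em.mono hu hle) ?_)
      rw [← hτ _ _ _ h1, ← hτ _ _ _ h2]
      exact fun u hu => Em.mono hu (not_le.mp hc).le
    · intro hle
      by_contra hc
      refine he (Subset.antisymm ?_ (fun u hu => Em.mono hu (not_le.mp hc).le))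
      rw [← hτ _ _ _ h1, ← hτ _ _ _ h2]
      exact fun u hu => Em.mono hu hle
  · rintro y y' z z' u ⟨hy, -⟩ - h3 -
    exact htot u (hy.trans h3)
  · rintro y y' z z' u ⟨hy, h1⟩ ⟨hz, h2⟩ h3 h4
    have hxu : x' ≤ u := (((hφ _).1 _ _ _ _ (hx _) h1).mp hy).trans h3
    obtain ⟨v, hv⟩ := (hφ _).2.2 _ _ _ _ u (hx _) h2 hxu h4
    have hxv : x ≤ v := ((hφ _).1 _ _ _ _ (hx _) hv).mpr hxu
    have hu : u ≤ w' (τ v) := by
      by_contra hc
      have hmem : w (τ v) ∈ τ' u :=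
        ⟨w' (τ v), ((hφ _).1 _ _ _ _ (hx _) (hww _)).mp (hw _), (not_le.mp hc).le, _, hφ _,
          hx _, hww _⟩
      rw [hτ _ _ _ hv] at hmem
      exact hn (τ v) v hxv rfl hmem
    obtain ⟨v', hv'⟩ := (hφ _).2.2 _ _ _ _ u (hx _) (hww _) hxu hu
    have : τ v' = τ v := by rw [← hτ _ _ _ hv', hτ _ _ _ hv]
    exact ⟨v', ((hφ _).1 _ _ _ _ (hx _) hv').mpr hxu, this ▸ hv'⟩
  · rintro y y' ⟨hy, h1⟩
    exact ⟨hy, _, hw' _, ((hφ _).1 _ _ _ _ h1 (hww _)).mp (hlt y hy)⟩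

theorem critB [Countable α] {x : α}
    (hB : ∀ z, x ≤ z → ∃ w, z ≤ w ∧ ∀ y, z ≤ y → Em z y z w) : CritR β x := by
  intro x' J hJ
  haveI : Nonempty α := ⟨x⟩
  obtain ⟨u, hu⟩ := exists_surjective_nat α
  choose! tp htp htp' using hB
  let a : ℕ → α := fun n => Nat.rec x (fun n t => max (tp t) (u n)) n
  have ha : ∀ n, a (n + 1) = max (tp (a n)) (u n) := fun n => rfl
  have hxa : ∀ n, x ≤ a n := by
    intro n
    induction n with
    | zero => exact le_rfl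
    | succ n ih => exact ih.trans ((htp _ ih).trans (le_max_left _ _))
  have hmono : ∀ n, a n ≤ a (n + 1) := fun n => (htp _ (hxa n)).trans (le_max_left _ _)
  obtain ⟨c0, hc0, hI⟩ := hJ (a 1) (hxa 1)
  let X : ℕ → (α → β → Prop) × β × β → Prop := fun n t =>
    CPI t.1 ∧ t.1 x x' ∧ t.1 (a n) t.2.1 ∧ (∀ p q, t.1 p q → x ≤ p ∧ p ≤ a n) ∧
      II (a n) (a (n + 1)) t.2.1 t.2.2 ∧ t.2.2 ≤ c0
  have hstep : ∀ n t, X n t → ∃ t', X (n + 1) t' ∧ ∀ p q, t.1 p q → t'.1 p q := by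
    rintro n ⟨R, b, c⟩ ⟨h1, h2, h3, h4, ⟨T2, h5, h6, h7⟩, h8⟩
    have hE : Em (a n) (a (n + 2)) (a n) (a (n + 1)) :=
      (htp' _ (hxa n) _ ((hmono n).trans (hmono (n + 1)))).mono (le_max_left _ _)
    obtain ⟨c', -, hc', T, hT, hT1, hT2⟩ := hE.trans h5 h6 h7
    obtain ⟨b', hb'⟩ := hT.2.1 _ _ _ _ (a (n + 1)) hT1 hT2 (hmono n) (hmono (n + 1))
    have hT' := hT.restrict (fun p => a n ≤ p ∧ p ≤ a (n + 1))
      fun _ _ _ h h' h1 h2 => ⟨h.1.trans h1, h2.trans h'.2⟩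
    refine ⟨⟨fun p q => R p q ∨ (T p q ∧ a n ≤ p ∧ p ≤ a (n + 1)), b', c'⟩,
      ⟨h1.glue hT' h3 ⟨hT1, le_rfl, hmono n⟩ (fun p q h => (h4 p q h).2) fun p q h => h.2.1,
        Or.inl h2, Or.inr ⟨hb', hmono n, le_rfl⟩, ?_, ⟨T, hT, hb', hT2⟩, hc'.trans h8⟩,
      fun p q h => Or.inl h⟩
    rintro p q (h | h)
    · exact ⟨(h4 p q h).1, (h4 p q h).2.trans (hmono n)⟩
    · exact ⟨(hxa n).trans h.2.1, h.2.2⟩
  choose! f hf hf' using hstep
  let t : ℕ → (α → β → Prop) × β × β := fun n =>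
    Nat.rec (fun p q => p = x ∧ q = x', x', c0) (fun n t => f n t) n
  have hX : ∀ n, X n (t n) := by
    intro n
    induction n with
    | zero =>
      refine ⟨CPI.single x x', ⟨rfl, rfl⟩, ⟨rfl, rfl⟩, ?_, hI, le_rfl⟩
      rintro p q ⟨rfl, -⟩
      exact ⟨le_rfl, le_rfl⟩
    | succ n ih => exact hf n _ ih
  have hm : ∀ n m, n ≤ m → ∀ p q, (t n).1 p q → (t m).1 p q := by
    intro n m h
    induction h with
    | refl => exact fun _ _ h => h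
    | step _ ih => exact fun p q h => hf' _ _ (hX _) p q (ih p q h)
  refine ⟨fun p q => ∃ n, (t n).1 p q, ⟨?_, ?_, ?_⟩, ⟨0, rfl, rfl⟩, ?_, ?_⟩
  · rintro p q p' q' ⟨n, h1⟩ ⟨m, h2⟩
    exact (hX (max n m)).1.1 _ _ _ _ (hm _ _ (le_max_left _ _) _ _ h1)
      (hm _ _ (le_max_right _ _) _ _ h2)
  · rintro p q p' q' z ⟨n, h1⟩ ⟨m, h2⟩ h3 h4
    exact ((hX (max n m)).1.2.1 _ _ _ _ z (hm _ _ (le_max_left _ _) _ _ h1)
      (hm _ _ (le_max_right _ _) _ _ h2) h3 h4).imp fun _ h => ⟨_, h⟩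
  · rintro p q p' q' z ⟨n, h1⟩ ⟨m, h2⟩ h3 h4
    exact ((hX (max n m)).1.2.2 _ _ _ _ z (hm _ _ (le_max_left _ _) _ _ h1)
      (hm _ _ (le_max_right _ _) _ _ h2) h3 h4).imp fun _ h => ⟨_, h⟩
  · rintro p q ⟨n, h⟩
    obtain ⟨h1, h2, h3, h4, ⟨T, h5, h6, h7⟩, h8⟩ := hX n
    exact ⟨(h4 p q h).1, c0, hc0, ((h1.1 _ _ _ _ h h3).mp (h4 p q h).2).trans
      (((h5.1 _ _ _ _ h6 h7).mp (hmono n)).trans h8)⟩
  · intro y hy
    obtain ⟨n, rfl⟩ := hu y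
    obtain ⟨h1, h2, h3, -⟩ := hX (n + 1)
    exact (h1.2.1 _ _ _ _ _ h2 h3 hy (le_max_right _ _)).imp fun _ h => ⟨n + 1, h⟩


theorem exists_critR [Countable α] (a : α) : ∃ x, a ≤ x ∧ ∀ (β : Type) [LinearOrder β], CritR β x := by
  by_cases h : ∀ z, a ≤ z → ∃ w, z ≤ w ∧ ∀ y, z ≤ y → Em z y z w
  · exact ⟨a, le_rfl, fun β _ => critB h⟩
  · push Not at h
    obtain ⟨z, hz, h⟩ := h
    exact ⟨z, hz, fun β _ => critG h⟩

/-- a point `x` such that the types of the intervals from `x` in the direction `s` suffice for an embedding of the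
half line from `x` in the direction `s` into every linear order -/
def CritAll (s : Bool) (x : α) : Prop :=
  ∀ (β : Type) [LinearOrder β] (x' : β) (J : Set β), (∀ y, sle s x y → ∃ y' ∈ J, II x y x' y') →
    ∃ R : α → β → Prop, CPI R ∧ R x x' ∧ (∀ a b, R a b → sle s x a ∧ ∃ j ∈ J, sle s b j) ∧
      ∀ y, sle s x y → ∃ y', R y y'

theorem exists_critAll [Countable α] (s : Bool) (a : α) : ∃ x, sle s a x ∧ CritAll s x := by
  cases s
  · haveI : Countable αᵒᵈ := (inferInstance : Countable α)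
    obtain ⟨x, hx, h⟩ := exists_critR (α := αᵒᵈ) a
    refine ⟨x, sle_f.mpr hx, fun β _ x' J hJ => ?_⟩
    obtain ⟨R, h1, h2, h3, h4⟩ := h βᵒᵈ x' J fun y hy => by
      obtain ⟨y', hy', R, h1, h2⟩ := hJ y (sle_f.mpr hy)
      exact ⟨y', hy', R, h1.dual, h2⟩
    refine ⟨R, CPI.undual (α := α) (β := β) h1, h2, fun a b hab => ?_, fun y hy => h4 y (sle_f.mp hy)⟩
    obtain ⟨h5, j, hj, h6⟩ := h3 a b hab
    exact ⟨(sle_f (α := α)).mpr h5, j, hj, (sle_f (α := β)).mpr h6⟩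
  · obtain ⟨x, hx, h⟩ := exists_critR a
    refine ⟨x, sle_t.mpr hx, fun β _ x' J hJ => ?_⟩
    obtain ⟨R, h1, h2, h3, h4⟩ := h β x' J fun y hy => hJ y (sle_t.mpr hy)
    refine ⟨R, h1, h2, fun a b hab => ?_, fun y hy => h4 y (sle_t.mp hy)⟩
    obtain ⟨h5, j, hj, h6⟩ := h3 a b hab
    exact ⟨sle_t.mpr h5, j, hj, sle_t.mpr h6⟩

theorem CritAll.crit {s : Bool} {x : α} (h : CritAll s x) : Crit s x := fun x' J hJ => h α x' J hJ

end Pool.Agent.HLead.CB
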