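import Pool.Agent.HLead.CB.Sys

/-!
# From a bisimulation to an embedding (MP_387a72_lc)
-/

set_option autoImplicit false

namespace Pool.Agent.HLead.CB
open Set
open Pool.Agent.H.MP_387a72_lc

variable {α β : Type} [LinearOrder α] [LinearOrder β]

/-- `Y` is a bisimulation between the systems of `α` and `β` -/
structure Bi (Y : St α → St β → Prop) : Prop where
  l : ∀ s t, Y s t → lab s = lab t
  f : ∀ s t, Y s t → ∀ s', tr s s' → ∃ t', tr t t' ∧ Y s' t'
  b : ∀ s t, Y s t → ∀ t', tr t t' → ∃ s', tr s s' ∧ Y s' t'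

theorem Bi.flip {Y : St α → St β → Prop} (h : Bi Y) : Bi (fun t s => Y s t) :=
  ⟨fun t s h' => (h.l s t h').symm, fun t s h' => h.b s t h', fun t s h' => h.f s t h'⟩

theorem lab0_T {X W : Type} {l : List X} {t : St W} (h : lab0 (St.T l) = lab0 t) : ∃ l', t = St.T l' := by
  cases t <;> simp_all [lab0]

theorem lab0_O {X W : Type} {i j : ℕ} {t : St W} (h : lab0 (St.O i j : St X) = lab0 t) :
    t = St.O i j := by
  cases t <;> simp_all [lab0]

theorem lab0_cd {X W : Type} {c : Bool × Pos X × Pos X} {t : St W} (h : lab0 (St.cd c) = lab0 t) :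
    ∃ c', t = St.cd c' ∧ c.1 = c'.1 := by
  cases t <;> simp_all [lab0]

theorem lab0_Z {X W : Type} {k : K} {t : St W} (h : lab0 (St.Z k : St X) = lab0 t) :
    t = St.Z k := by
  cases t <;> simp_all [lab0]
  exact (kc_inj h).symm

theorem lab0_P {X W : Type} {m : Option Bool} {a b : X} {t : St W} (h : lab0 (St.P m a b) = lab0 t) :
    ∃ a' b', t = St.P m a' b' := by
  cases t <;> simp_all [lab0]

theorem lab0_Q {X W : Type} {m : Option Bool} {s : Bool} {x u v : X} {t : St W}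
    (h : lab0 (St.Q m s x u v) = lab0 t) : ∃ x' u' v', t = St.Q m s x' u' v' := by
  cases t <;> simp_all [lab0]

/-- the hull of two points -/
def hl (a b : α) : Set α := {z | ∃ p p', p ∈ [a, b] ∧ p' ∈ [a, b] ∧ p ≤ z ∧ z ≤ p'}

theorem hl_conv {a b c c' z : α} (h : c ∈ hl a b) (h' : c' ∈ hl a b) (h1 : c ≤ z) (h2 : z ≤ c') :
    z ∈ hl a b := by
  obtain ⟨p, -, hp, -, h3, -⟩ := h
  obtain ⟨-, q, -, hq, -, h4⟩ := h'
  exact ⟨p, q, hp, hq, h3.trans h1, h2.trans h4⟩

/-- the invariant of the back and forth construction -/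
def Xi (Y : St α → St β → Prop) (a b : α) (a' b' : β) (l : List (α × β)) : Prop :=
  Y (St.T (l.map Prod.fst)) (St.T (l.map Prod.snd)) ∧ [(a, a'), (b, b')] ⊆ l ∧
    ∀ p ∈ l, p.1 ∈ hl a b ∧ p.2 ∈ hl a' b'

theorem Xi.forth {Y : St α → St β → Prop} (hY : Bi Y) {a b : α} {a' b' : β} {l : List (α × β)}
    (h : Xi Y a b a' b' l) {z : α} (hz : z ∈ hl a b) : ∃ w, Xi Y a b a' b' ((z, w) :: l) := by
  obtain ⟨h1, h2, h3⟩ := h
  obtain ⟨p, p', hp, hp', h4, h5⟩ := hz
  have hm : ∀ x ∈ [a, b], x ∈ l.map Prod.fst := by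
    intro x hx
    simp only [List.mem_cons, List.not_mem_nil, or_false] at hx
    rcases hx with rfl | rfl
    · exact List.mem_map.mpr ⟨_, h2 (List.mem_cons_self), rfl⟩
    · exact List.mem_map.mpr ⟨_, h2 (List.mem_cons_of_mem _ List.mem_cons_self), rfl⟩
  obtain ⟨t, ht, hY'⟩ := hY.f _ _ h1 (St.T (z :: l.map Prod.fst))
    (Or.inr ⟨z, p, p', hm p hp, hm p' hp', h4, h5, rfl⟩)
  rcases ht with ⟨i, j, -, -, -, -, -, rfl⟩ | ⟨w, q, q', hq, hq', h6, h7, rfl⟩
  · have := lab_eq (hY.l _ _ hY')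
    simp [lab0] at this
  · refine ⟨w, hY', fun x hx => List.mem_cons_of_mem _ (h2 hx), fun x hx => ?_⟩
    rcases List.mem_cons.mp hx with rfl | hx
    · refine ⟨⟨p, p', hp, hp', h4, h5⟩, ?_⟩
      obtain ⟨x1, hx1, rfl⟩ := List.mem_map.mp hq
      obtain ⟨x2, hx2, rfl⟩ := List.mem_map.mp hq'
      exact hl_conv (h3 _ hx1).2 (h3 _ hx2).2 h6 h7
    · exact h3 x hx

theorem Xi.swap {Y : St α → St β → Prop} {a b : α} {a' b' : β} {l : List (α × β)}
    (h : Xi Y a b a' b' l) : Xi (fun t s => Y s t) a' b' a b (l.map Prod.swap) := by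
  obtain ⟨h1, h2, h3⟩ := h
  refine ⟨?_, ?_, ?_⟩
  · have e1 : (l.map Prod.swap).map Prod.fst = l.map Prod.snd := by
      rw [List.map_map]; rfl
    have e2 : (l.map Prod.swap).map Prod.snd = l.map Prod.fst := by
      rw [List.map_map]; rfl
    show Y (St.T ((l.map Prod.swap).map Prod.snd)) (St.T ((l.map Prod.swap).map Prod.fst))
    rw [e1, e2]
    exact h1
  · intro x hx
    simp only [List.mem_cons, List.not_mem_nil, or_false] at hx
    rcases hx with rfl | rfl
    · exact List.mem_map.mpr ⟨(a, a'), h2 (by simp), rfl⟩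
    · exact List.mem_map.mpr ⟨(b, b'), h2 (by simp), rfl⟩
  · intro p hp
    obtain ⟨q, hq, rfl⟩ := List.mem_map.mp hp
    exact ⟨(h3 q hq).2, (h3 q hq).1⟩

theorem map_swap_swap {X W : Type} (l : List (X × W)) : (l.map Prod.swap).map Prod.swap = l := by
  rw [List.map_map, Prod.swap_swap_eq, List.map_id]

theorem Xi.back {Y : St α → St β → Prop} (hY : Bi Y) {a b : α} {a' b' : β} {l : List (α × β)}
    (h : Xi Y a b a' b' l) {w : β} (hw : w ∈ hl a' b') : ∃ z, Xi Y a b a' b' ((z, w) :: l) := by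
  obtain ⟨z, hz⟩ := Xi.forth hY.flip h.swap hw
  refine ⟨z, ?_⟩
  have := hz.swap
  simp only [List.map_cons, map_swap_swap] at this
  exact this

theorem Xi.le {Y : St α → St β → Prop} (hY : Bi Y) {a b : α} {a' b' : β} {l : List (α × β)}
    (h : Xi Y a b a' b' l) {p q : α × β} (hp : p ∈ l) (hq : q ∈ l) (hle : p.1 ≤ q.1) : p.2 ≤ q.2 := by
  obtain ⟨i, hi, rfl⟩ := List.getElem_of_mem hp
  obtain ⟨j, hj, rfl⟩ := List.getElem_of_mem hq
  obtain ⟨t, ht, hY'⟩ := hY.f _ _ h.1 (St.O i j)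
    (Or.inl ⟨i, j, l[i].1, l[j].1, by simp [hi], by simp [hj], hle, rfl⟩)
  have h0 := lab0_O (lab_eq (hY.l _ _ hY'))
  subst h0
  rcases ht with ⟨i', j', c, c', hc, hc', hle', he⟩ | ⟨w, q, q', -, -, -, -, he⟩
  · cases he
    simp only [List.getElem?_map, List.getElem?_eq_getElem hi, List.getElem?_eq_getElem hj,
      Option.map_some, Option.some.injEq] at hc hc'
    rw [hc, hc']
    exact hle'
  · cases he

theorem Bi.ii [Countable α] [Countable β] {Y : St α → St β → Prop} (hY : Bi Y) {a b : α} {a' b' : β}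
    (h : Y (St.T [a, b]) (St.T [a', b'])) : II a b a' b' := by
  have h0 : Xi Y a b a' b' [(a, a'), (b, b')] := by
    refine ⟨h, fun _ h => h, fun p hp => ?_⟩
    simp only [List.mem_cons, List.not_mem_nil, or_false] at hp
    rcases hp with rfl | rfl
    · exact ⟨⟨a, a, by simp, by simp, le_rfl, le_rfl⟩, ⟨a', a', by simp, by simp, le_rfl, le_rfl⟩⟩
    · exact ⟨⟨b, b, by simp, by simp, le_rfl, le_rfl⟩, ⟨b', b', by simp, by simp, le_rfl, le_rfl⟩⟩
  obtain ⟨R, h1, h2, h3, h4⟩ := bf (hl a b) (hl a' b') (Xi Y a b a' b') _ h0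
    (fun l hl' z hz => hl'.forth hY hz) (fun l hl' w hw => hl'.back hY hw)
  refine ⟨R, ⟨?_, ?_, ?_⟩, h1 (a, a') (by simp), h1 (b, b') (by simp)⟩
  · intro p q p' q' e1 e2
    obtain ⟨l, hl', m1, m2⟩ := h4 _ _ _ _ e1 e2
    refine ⟨fun h => Xi.le hY hl' m1 m2 h, fun h => ?_⟩
    exact Xi.le hY.flip hl'.swap (p := (q, p)) (q := (q', p'))
      (List.mem_map.mpr ⟨_, m1, rfl⟩) (List.mem_map.mpr ⟨_, m2, rfl⟩) h
  · intro p q p' q' z e1 e2 h5 h6
    obtain ⟨l, hl', m1, m2⟩ := h4 _ _ _ _ e1 e2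
    exact h2 z (hl_conv (hl'.2.2 _ m1).1 (hl'.2.2 _ m2).1 h5 h6)
  · intro p q p' q' z e1 e2 h5 h6
    obtain ⟨l, hl', m1, m2⟩ := h4 _ _ _ _ e1 e2
    exact h3 z (hl_conv (hl'.2.2 _ m1).2 (hl'.2.2 _ m2).2 h5 h6)

theorem Bi.cr_le {Y : St α → St β → Prop} (hY : Bi Y) {c : Bool × Pos α × Pos α}
    {c' : Bool × Pos β × Pos β} (h : Y (St.cd c) (St.cd c')) (hc : c.1 = true) (hc' : c'.1 = true) :
    cr (GG β) c' ≤ cr (GG α) c := by
  refine status (DD α) (DD β) (fun c c' => Y (St.cd c) (St.cd c')) ?_ ?_ h hc hc'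
  · intro c c' h d hd
    obtain ⟨t, ⟨d', hd', rfl⟩, h'⟩ := hY.f _ _ h (St.cd d) ⟨d, hd, rfl⟩
    exact ⟨d', hd', h'⟩
  · intro c c' h d hd
    obtain ⟨t, ⟨d', hd', rfl⟩, h'⟩ := hY.b _ _ h (St.cd d) ⟨d, hd, rfl⟩
    exact ⟨d', hd', h'⟩

theorem Bi.rk_eq {Y : St α → St β → Prop} (hY : Bi Y) {p : Pos α} {p' : Pos β}
    (h : Y (St.cd (true, p, p)) (St.cd (true, p', p'))) : r p = r p' := by
  refine le_antisymm ?_ ?_
  · have := hY.flip.cr_le (c := (true, p', p')) (c' := (true, p, p)) h rfl rfl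
    simpa [cr] using this
  · have := hY.cr_le (c := (true, p, p)) (c' := (true, p', p')) h rfl rfl
    simpa [cr] using this

theorem Bi.rt_eq {Y : St α → St β → Prop} (hY : Bi Y) (h0 : Y St.root St.root) (k : K) :
    rt α k = rt β k := by
  obtain ⟨t, -, h1⟩ := hY.f _ _ h0 (St.Z k) (Or.inl ⟨k, rfl⟩)
  have := lab0_Z (lab_eq (hY.l _ _ h1))
  subst this
  obtain ⟨t, ht, h2⟩ := hY.f _ _ h1 (St.cd (true, Pos.root k, Pos.root k)) rfl
  cases ht
  exact hY.rk_eq h2

/-- the information in a state `P m a b` -/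
theorem Bi.P [Countable α] [Countable β] {Y : St α → St β → Prop} (hY : Bi Y)
    (h0 : Y St.root St.root) (m : Option Bool) {a b : α} (hab : a ≤ b) : ∃ a' b' : β, a' ≤ b' ∧
      II a b a' b' ∧ ∀ s, (m = none ∨ m = some s) → rt α (gk s m.isNone) ≠ ⊤ →
        ∀ y, sle s (ep s a b) y → ∃ y', sle s (ep s a' b') y' ∧ II (ep s a b) y (ep s a' b') y' := by
  obtain ⟨t, ht, h1⟩ := hY.f _ _ h0 (St.P m a b) (Or.inr (Or.inl ⟨m, a, b, hab, rfl⟩))
  obtain ⟨a', b', rfl⟩ := lab0_P (lab_eq (hY.l _ _ h1))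
  have hab' : a' ≤ b' := by
    rcases ht with ⟨k, he⟩ | ⟨m', a1, b1, h, he⟩ | ⟨a1, b1, -, he⟩
    · cases he
    · cases he; exact h
    · cases he
  refine ⟨a', b', hab', ?_, fun s hs hk y hy => ?_⟩
  · obtain ⟨t, ht, h2⟩ := hY.f _ _ h1 (St.T [a, b]) (Or.inl rfl)
    rcases ht with rfl | ⟨s, u, v, -, -, rfl⟩
    · exact hY.ii h2
    · have := lab_eq (hY.l _ _ h2)
      simp [lab0] at this
  · obtain ⟨t, ht, h2⟩ := hY.f _ _ h1 (St.Q m s (ep s a b) (ep s a b) y)
      (Or.inr ⟨s, _, _, hs, hy, rfl⟩)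
    rcases ht with rfl | ⟨s', u, v, -, -, rfl⟩
    · have := lab_eq (hY.l _ _ h2)
      simp [lab0] at this
    · obtain ⟨x', u', v', he⟩ := lab0_Q (lab_eq (hY.l _ _ h2))
      cases he
      have hii : II (ep s a b) y u v := by
        obtain ⟨t, ht, h3⟩ := hY.f _ _ h2 (St.T [ep s a b, y]) (Or.inl rfl)
        rcases ht with rfl | rfl
        · exact hY.ii h3
        · have := lab_eq (hY.l _ _ h3)
          simp [lab0] at this
      have hr : r (Pos.fam s m.isNone (ep s a b) (ep s a b) y) =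
          r (Pos.fam s m.isNone (ep s a' b') u v) := by
        obtain ⟨t, ht, h3⟩ := hY.f _ _ h2 (St.cd (true, _, _)) (Or.inr rfl)
        rcases ht with rfl | rfl
        · have := lab_eq (hY.l _ _ h3)
          simp [lab0] at this
        · exact hY.rk_eq h3
      have htop : r (Pos.fam s m.isNone (ep s a b) (ep s a b) y) = ⊤ :=
        fam_top' hy ⟨_, CPI.refl, rfl, rfl⟩
      obtain ⟨y', hy', h4⟩ := fam_sound (hr ▸ htop) (hY.rt_eq h0 _ ▸ hk)
      exact ⟨y', hy', II.trans hii (II.symm h4)⟩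

/-- glueing: middle part and the two sides -/
theorem glue3 {x : Bool → α} {x' : Bool → β} (hx : x false ≤ x true) (hM : II (x false) (x true) (x' false) (x' true))
    (o : Bool → Prop)
    (hs : ∀ s, o s → ∃ R : α → β → Prop, CPI R ∧ R (x s) (x' s) ∧ (∀ a b, R a b → sle s (x s) a) ∧
      ∀ y, sle s (x s) y → ∃ y', R y y') :
    ∃ R : α → β → Prop, CPI R ∧ ∀ z, (∀ s, ¬ o s → sle s z (x s)) → ∃ w, R z w := by
  obtain ⟨M, hM, m1, m2⟩ := hM
  have hside : ∀ s, ∃ R : α → β → Prop, CPI R ∧ R (x s) (x' s) ∧ (∀ a b, R a b → sle s (x s) a) ∧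
      (o s → ∀ y, sle s (x s) y → ∃ y', R y y') := by
    intro s
    by_cases ho : o s
    · obtain ⟨R, h1, h2, h3, h4⟩ := hs s ho
      exact ⟨R, h1, h2, h3, fun _ => h4⟩
    · refine ⟨_, CPI.single (x s) (x' s), ⟨rfl, rfl⟩, ?_, fun h => absurd h ho⟩
      rintro _ _ ⟨rfl, -⟩
      exact sle_refl _ _
  obtain ⟨L, l1, l2, l3, l4⟩ := hside false
  obtain ⟨R, r1, r2, r3, r4⟩ := hside true
  have hM' := hM.restrict (fun p => x false ≤ p ∧ p ≤ x true)
    fun _ _ _ h h' h1 h2 => ⟨h.1.trans h1, h2.trans h'.2⟩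
  have g1 := l1.glue hM' l2 ⟨m1, le_rfl, hx⟩ (fun a b h => sle_f.mp (l3 a b h)) fun a b h => h.2.1
  have g2 := g1.glue r1 (Or.inr ⟨m2, hx, le_rfl⟩) r2
    (fun a b h => h.elim (fun h => (sle_f.mp (l3 a b h)).trans hx) fun h => h.2.2)
    fun a b h => sle_t.mp (r3 a b h)
  refine ⟨_, g2, fun z hz => ?_⟩
  rcases le_total z (x false) with h1 | h1
  · by_cases hm : o false
    · exact (l4 hm z (sle_f.mpr h1)).imp fun _ h => Or.inl (Or.inl h)
    · exact ⟨_, Or.inl (Or.inl (le_antisymm h1 (sle_f.mp (hz _ hm)) ▸ l2))⟩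
  rcases le_total z (x true) with h2 | h2
  · exact (hM.2.1 _ _ _ _ z m1 m2 h1 h2).imp fun _ h => Or.inl (Or.inr ⟨h, h1, h2⟩)
  · by_cases hm : o true
    · exact (r4 hm z (sle_t.mpr h2)).imp fun _ h => Or.inr h
    · exact ⟨_, Or.inr (le_antisymm (sle_t.mp (hz _ hm)) h2 ▸ r2)⟩

theorem sle_not {s : Bool} {a b : α} : sle (!s) a b ↔ sle s b a := by
  cases s
  · simp only [Bool.not_false, sle_f, sle_t]
  · simp only [Bool.not_true, sle_f, sle_t]

/-- **Completeness.** -/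
theorem emb_of_bis [Countable α] [Nonempty α] [Countable β] [Nonempty β] {Y : St α → St β → Prop}
    (hY : Bi Y) (h0 : Y St.root St.root) : ∃ R : α → β → Prop, CPI R ∧ Tot R := by
  by_cases hD : rt α K.D = ⊤
  · by_cases hC : rt α K.C = ⊤
    · -- the order embeds in a bounded interval
      obtain ⟨T, e, h1, t, h2⟩ := comp_both (soundC hC)
      have he : e false ≤ e true := by
        obtain ⟨a⟩ := (inferInstance : Nonempty α)
        obtain ⟨b, hb⟩ := t a
        have h3 := h2 true a b hb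
        have h4 := h2 false a b hb
        rw [sle_t, not_le] at h3
        rw [sle_f, not_le] at h4
        exact (h4.trans h3).le
      obtain ⟨t', ht, h3⟩ := hY.f _ _ h0 (St.T [e false, e true])
        (Or.inr (Or.inr ⟨_, _, he, rfl⟩))
      rcases ht with ⟨k, rfl⟩ | ⟨m, a, b, -, rfl⟩ | ⟨a, b, hab, rfl⟩
      · have := lab_eq (hY.l _ _ h3)
        simp [lab0] at this
      · have := lab_eq (hY.l _ _ h3)
        simp [lab0] at this
      · obtain ⟨R, hR, e1, e2⟩ := hY.ii h3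
        refine ⟨_, h1.comp hR, fun z => ?_⟩
        obtain ⟨w, hw⟩ := t z
        have h4 := h2 true z w hw
        have h5 := h2 false z w hw
        rw [sle_t, not_le] at h4
        rw [sle_f, not_le] at h5
        obtain ⟨v, hv⟩ := hR.2.1 _ _ _ _ w e1 e2 h5.le h4.le
        exact ⟨v, w, hw, hv⟩
    · -- one side
      obtain ⟨s, hs⟩ := soundD hD
      have hA : rt α (K.A (!s)) ≠ ⊤ := fun h =>
        hC (root_top (exC_top (both_of hs (soundA h (by simpa using hs)))))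
      obtain ⟨T, e, h1, t, h2⟩ := hs
      obtain ⟨c, hc, hcr⟩ := exists_critAll (!s) e
      -- the two points in increasing order
      let x : Bool → α := fun q => if q = !s then c else e
      have hx : x false ≤ x true := by
        cases s
        · simpa [x] using sle_t.mp hc
        · simpa [x] using sle_f.mp hc
      obtain ⟨a', b', hab', hM, hP⟩ := hY.P h0 (some (!s)) hx
      have hep : ep (!s) (x false) (x true) = c := by
        cases s <;> simp [ep, x]
      let x' : Bool → β := fun q => ep q a' b'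
      obtain ⟨R, hR, hR'⟩ := glue3 (x := x) (x' := x') hx hM (fun q => q = !s) (by
        rintro q rfl
        have := hP (!s) (Or.inr rfl) (by simpa [gk] using hA)
        rw [hep] at this
        obtain ⟨R, r1, r2, r3, r4⟩ := hcr β (ep (!s) a' b') Set.univ fun y hy => by
          obtain ⟨y', -, h⟩ := this y hy
          exact ⟨y', Set.mem_univ _, h⟩
        have hxs : x (!s) = c := by simp [x]
        rw [hxs]
        exact ⟨R, r1, r2, fun a b h => (r3 a b h).1, r4⟩)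
      refine ⟨_, h1.comp hR, fun z => ?_⟩
      obtain ⟨w, hw⟩ := t z
      obtain ⟨v, hv⟩ := hR' w fun q hq => by
        have hq' : q = s := by cases q <;> cases s <;> simp_all
        subst hq'
        have hxe : x q = e := by simp [x]
        rw [hxe]
        exact (sle_total q _ _).resolve_left (h2 _ _ hw)
      exact ⟨v, w, hw, hv⟩
  · -- no side
    obtain ⟨a⟩ := (inferInstance : Nonempty α)
    choose x hx1 hx2 using fun s => exists_critAll s a
    have hx : x false ≤ x true := (sle_f.mp (hx1 false)).trans (sle_t.mp (hx1 true))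
    obtain ⟨a', b', hab', hM, hP⟩ := hY.P h0 none hx
    obtain ⟨R, hR, hR'⟩ := glue3 (x := x) (x' := fun q => ep q a' b') hx hM (fun _ => True) (by
      rintro s -
      have hep : ep s (x false) (x true) = x s := by cases s <;> rfl
      have := hP s (Or.inl rfl) (by simpa [gk] using hD)
      rw [hep] at this
      obtain ⟨R, r1, r2, r3, r4⟩ := hx2 s β (ep s a' b') Set.univ fun y hy => by
        obtain ⟨y', -, h⟩ := this y hy
        exact ⟨y', Set.mem_univ _, h⟩
      exact ⟨R, r1, r2, fun a b h => (r3 a b h).1, r4⟩)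
    exact ⟨R, hR, fun z => hR' z fun s hs => absurd trivial hs⟩

end Pool.Agent.HLead.CB
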