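import Pool.Agent.HLead.CB.Good
import Pool.Agent.HLead.CB.Crit
import Pool.Agent.HLead.CB.Defs

/-!
# The transition system of a linear order (MP_387a72_lc)
-/

set_option autoImplicit false

namespace Pool.Agent.HLead.CB
open Set
open Pool.Agent.H.MP_387a72_lc

/-- the states -/
inductive St (α : Type)
  | root
  | Z (k : K)
  | P (m : Option Bool) (a b : α)
  | Q (m : Option Bool) (s : Bool) (x u v : α)
  | T (l : List α)
  | O (i j : ℕ)
  | cd (c : Bool × Pos α × Pos α)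
  deriving Countable

def kc : K → ℕ
  | K.A true => 0
  | K.A false => 1
  | K.C => 2
  | K.D => 3

/-- the labels before coding -/
def lab0 {α : Type} : St α → ℕ × ℕ × ℕ
  | St.root => (0, 0, 0)
  | St.Z k => (1, kc k, 0)
  | St.P m _ _ => (2, Encodable.encode m, 0)
  | St.Q m s _ _ _ => (3, Encodable.encode m, Encodable.encode s)
  | St.T _ => (4, 0, 0)
  | St.O i j => (5, i, j)
  | St.cd c => (6, Encodable.encode c.1, 0)

/-- the labels -/
def lab {α : Type} (s : St α) : ℕ := Encodable.encode (lab0 s)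

/-- the end point on the side `s` -/
def ep {α : Type} (s : Bool) (a b : α) : α := if s = true then b else a

/-- the transitions -/
def tr {α : Type} [LE α] : St α → St α → Prop
  | St.root, q => (∃ k, q = St.Z k) ∨ (∃ m a b, a ≤ b ∧ q = St.P m a b) ∨
      ∃ a b, a ≤ b ∧ q = St.T [a, b]
  | St.Z k, q => q = St.cd (true, Pos.root k, Pos.root k)
  | St.P m a b, q => q = St.T [a, b] ∨
      ∃ s u v, (m = none ∨ m = some s) ∧ sle s u v ∧ q = St.Q m s (ep s a b) u v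
  | St.Q m s x u v, q => q = St.T [u, v] ∨
      q = St.cd (true, Pos.fam s m.isNone x u v, Pos.fam s m.isNone x u v)
  | St.T l, q => (∃ i j p p', l[i]? = some p ∧ l[j]? = some p' ∧ p ≤ p' ∧ q = St.O i j) ∨
      ∃ z p p', p ∈ l ∧ p' ∈ l ∧ p ≤ z ∧ z ≤ p' ∧ q = St.T (z :: l)
  | St.O _ _, _ => False
  | St.cd c, q => ∃ d, cs (DD α) c d ∧ q = St.cd d

variable {α β : Type} [LinearOrder α] [LinearOrder β]

theorem kc_inj {k k' : K} (h : kc k = kc k') : k = k' := by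
  rcases k with (_ | _) | _ | _ <;> rcases k' with (_ | _) | _ | _ <;> simp_all [kc]

theorem lab_eq {X Y : Type} {s : St X} {t : St Y} (h : lab s = lab t) : lab0 s = lab0 t :=
  Encodable.encode_injective h

/-! ## Invariance -/

/-- the bisimulation -/
def Sim (α β : Type) [LinearOrder α] [LinearOrder β] : St α → St β → Prop
  | St.root, q => q = St.root
  | St.Z k, q => q = St.Z k
  | St.P m a b, q => ∃ a' b', q = St.P m a' b' ∧ II a b a' b' ∧
      ∀ s, (m = none ∨ m = some s) → ∀ u v u' v', II u v u' v' →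
        r (Pos.fam s m.isNone (ep s a b) u v) = r (Pos.fam s m.isNone (ep s a' b') u' v')
  | St.Q m s x u v, q => ∃ x' u' v', q = St.Q m s x' u' v' ∧ II u v u' v' ∧
      r (Pos.fam s m.isNone x u v) = r (Pos.fam s m.isNone x' u' v')
  | St.T l, q => ∃ l' R, q = St.T l' ∧ CPI R ∧ List.Forall₂ R l l'
  | St.O i j, q => q = St.O i j
  | St.cd c, q => ∃ c', q = St.cd c' ∧ Zc (GG α) (GG β) c c'

theorem Sim.lab {s : St α} {t : St β} (h : Sim α β s t) : lab s = CB.lab t := by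
  cases s with
  | root => cases h; rfl
  | Z k => cases h; rfl
  | P m a b => obtain ⟨a', b', rfl, -⟩ := h; rfl
  | Q m s x u v => obtain ⟨x', u', v', rfl, -⟩ := h; rfl
  | T l => obtain ⟨l', R, rfl, -⟩ := h; rfl
  | O i j => cases h; rfl
  | cd c => obtain ⟨c', rfl, h1, -⟩ := h; simp [CB.lab, lab0, h1]

theorem II.symm {a b : α} {a' b' : β} (h : II a b a' b') : II a' b' a b := by
  obtain ⟨R, hR, h1, h2⟩ := h
  exact ⟨_, hR.flip, h1, h2⟩

theorem II.trans {γ : Type} [LinearOrder γ] {a b : α} {a' b' : β} {a'' b'' : γ} (h : II a b a' b')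
    (h' : II a' b' a'' b'') : II a b a'' b'' := by
  obtain ⟨R, hR, h1, h2⟩ := h
  obtain ⟨S, hS, h3, h4⟩ := h'
  exact ⟨_, hR.comp hS, ⟨_, h1, h3⟩, ⟨_, h2, h4⟩⟩

theorem Sim.symm {s : St α} {t : St β} (h : Sim α β s t) : Sim β α t s := by
  cases s with
  | root => cases h; rfl
  | Z k => cases h; rfl
  | P m a b =>
    obtain ⟨a', b', rfl, h1, h2⟩ := h
    exact ⟨a, b, rfl, II.symm h1, fun s hs u v u' v' h => (h2 s hs u' v' u v (II.symm h)).symm⟩
  | Q m s x u v =>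
    obtain ⟨x', u', v', rfl, h1, h2⟩ := h
    exact ⟨x, u, v, rfl, II.symm h1, h2.symm⟩
  | T l =>
    obtain ⟨l', R, rfl, h1, h2⟩ := h
    exact ⟨l, _, rfl, h1.flip, h2.flip⟩
  | O i j => cases h; rfl
  | cd c =>
    obtain ⟨c', rfl, h1, h2, h3, h4⟩ := h
    exact ⟨c, rfl, h1.symm, h3, h2, h4.symm⟩

theorem sim_forth [Countable α] [Nonempty α] [Countable β] [Nonempty β] {R : α → β → Prop}
    {S : β → α → Prop} (h1 : CPI R) (h2 : CPI S) (t1 : Tot R) (t2 : Tot S) {s : St α} {t : St β}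
    (h : Sim α β s t) {s' : St α} (hs : tr s s') : ∃ t', tr t t' ∧ Sim α β s' t' := by
  have hrt : ∀ k, rt α k = rt β k := fun k =>
    le_antisymm (root_le h1 h2 t1 t2 k) (root_le h2 h1 t2 t1 k)
  choose f hf using id t1
  cases s with
  | root =>
    cases h
    rcases hs with ⟨k, rfl⟩ | ⟨m, a, b, hab, rfl⟩ | ⟨a, b, hab, rfl⟩
    · exact ⟨_, Or.inl ⟨k, rfl⟩, rfl⟩
    · refine ⟨_, Or.inr (Or.inl ⟨m, f a, f b, (h1.1 _ _ _ _ (hf a) (hf b)).mp hab, rfl⟩), f a, f b, rfl,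
        ⟨R, h1, hf a, hf b⟩, ?_⟩
      rintro s hs u v u' v' ⟨R2, h3, h4, h5⟩
      by_cases hk : rt α (gk s m.isNone) = ⊤
      · rw [fam_top hk, fam_top (α := β) (hrt _ ▸ hk)]
      · have hc : ¬ Comp α s := fun hc => hk (gk_top hc)
        have hep : R (ep s a b) (ep s (f a) (f b)) := by
          unfold ep; split_ifs
          exacts [hf b, hf a]
        exact le_antisymm
          (fam_le h1 h3 hep h4 h5 (fun y _ => t1 y) (hrt _).le)
          (fam_le h1.flip h3.flip hep h4 h5 (fun y hy => fix h1 h2 t1 t2 hc hep y hy) (hrt _).ge)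
    · exact ⟨_, Or.inr (Or.inr ⟨f a, f b, (h1.1 _ _ _ _ (hf a) (hf b)).mp hab, rfl⟩), [f a, f b], R,
        rfl, h1, List.Forall₂.cons (hf a) (List.Forall₂.cons (hf b) List.Forall₂.nil)⟩
  | Z k =>
    cases h
    cases hs
    exact ⟨_, rfl, _, rfl, rfl, fun h => (Bool.noConfusion h), fun h => (Bool.noConfusion h), by
      simp [cr]; exact hrt k⟩
  | P m a b =>
    obtain ⟨a', b', rfl, ⟨R', hR', h3, h4⟩, h5⟩ := h
    rcases hs with rfl | ⟨s, u, v, hm, huv, rfl⟩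
    · exact ⟨_, Or.inl rfl, [a', b'], R', rfl, hR',
        List.Forall₂.cons h3 (List.Forall₂.cons h4 List.Forall₂.nil)⟩
    · have hI : II u v (f u) (f v) := ⟨R, h1, hf u, hf v⟩
      exact ⟨_, Or.inr ⟨s, f u, f v, hm, (h1.1.sle s (hf u) (hf v)).mp huv, rfl⟩, _, _, _, rfl, hI,
        h5 s hm _ _ _ _ hI⟩
  | Q m s x u v =>
    obtain ⟨x', u', v', rfl, ⟨R', hR', h3, h4⟩, h5⟩ := h
    rcases hs with rfl | rfl
    · exact ⟨_, Or.inl rfl, [u', v'], R', rfl, hR',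
        List.Forall₂.cons h3 (List.Forall₂.cons h4 List.Forall₂.nil)⟩
    · exact ⟨_, Or.inr rfl, _, rfl, rfl, fun h => (Bool.noConfusion h), fun h => (Bool.noConfusion h), by
        simp [cr]; exact h5⟩
  | T l =>
    obtain ⟨l', R', rfl, hR', h3⟩ := h
    rcases hs with ⟨i, j, p, p', hp, hp', hle, rfl⟩ | ⟨z, p, p', hp, hp', hz, hz', rfl⟩
    · have key : ∀ (i : ℕ) (p : α), l[i]? = some p → ∃ p', l'[i]? = some p' ∧ R' p p' := by
        intro i p hp
        obtain ⟨hi, rfl⟩ := List.getElem?_eq_some_iff.mp hp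
        have hi' : i < l'.length := h3.length_eq ▸ hi
        exact ⟨l'[i], List.getElem?_eq_getElem hi', (List.forall₂_iff_get.mp h3).2 i hi hi'⟩
      obtain ⟨c, hc, h4⟩ := key i p hp
      obtain ⟨c', hc', h5⟩ := key j p' hp'
      exact ⟨_, Or.inl ⟨i, j, c, c', hc, hc', (hR'.1 _ _ _ _ h4 h5).mp hle, rfl⟩, rfl⟩
    · have key : ∀ p ∈ l, ∃ p' ∈ l', R' p p' := by
        intro p hp
        obtain ⟨i, hi, rfl⟩ := List.getElem_of_mem hp
        have hi' : i < l'.length := h3.length_eq ▸ hi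
        exact ⟨l'[i], List.getElem_mem hi', (List.forall₂_iff_get.mp h3).2 i hi hi'⟩
      obtain ⟨c, hc, h4⟩ := key p hp
      obtain ⟨c', hc', h5⟩ := key p' hp'
      obtain ⟨w, hw⟩ := hR'.2.1 _ _ _ _ z h4 h5 hz hz'
      exact ⟨_, Or.inr ⟨w, c, c', hc, hc', (hR'.1 _ _ _ _ h4 hw).mp hz, (hR'.1 _ _ _ _ hw h5).mp hz',
        rfl⟩, _, _, rfl, hR', List.Forall₂.cons hw h3⟩
  | O i j => exact hs.elim
  | cd c =>
    obtain ⟨c', rfl, hc⟩ := h
    obtain ⟨d, hd, rfl⟩ := hs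
    obtain ⟨d', hd', hz⟩ := Zc_forth (DD α) (DD β) (fun p => good h1 h2 t1 t2 p) hc hd
    exact ⟨_, ⟨d', hd', rfl⟩, d', rfl, hz⟩

/-- **Invariance.** -/
theorem bis_of_emb [Countable α] [Nonempty α] [Countable β] [Nonempty β] {R : α → β → Prop}
    {S : β → α → Prop} (h1 : CPI R) (h2 : CPI S) (t1 : Tot R) (t2 : Tot S) :
    ∃ Y : St α → St β → Prop, Y St.root St.root ∧ ∀ s t, Y s t → lab s = lab t ∧
      (∀ s', tr s s' → ∃ t', tr t t' ∧ Y s' t') ∧ (∀ t', tr t t' → ∃ s', tr s s' ∧ Y s' t') := by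
  refine ⟨Sim α β, rfl, fun s t h => ⟨h.lab, fun s' hs => sim_forth h1 h2 t1 t2 h hs,
    fun t' ht => ?_⟩⟩
  obtain ⟨s', hs', h'⟩ := sim_forth h2 h1 t2 t1 h.symm ht
  exact ⟨s', hs', h'.symm⟩

end Pool.Agent.HLead.CB
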